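import Mathlib
import Pool.Agent.V11269.T4Proof

/-!
For finite sets of upper triangular 2 x 2 matrices the rank-one convex hull can be strictly larger
than the T4-convex hull: there is a six-point set (a T6 configuration) whose rank-one convex hull
contains a point lying in none of the sets K^(i).
-/

namespace Pool.Agent.Results.MP_400093_an.SixPointCounterexample

open Pool.Agent.V11269.T4

theorem result : ∃ K : Set Pt, K.Finite ∧ K.ncard = 6 ∧ ∃ A ∈ rcHull K, A ∉ t4Hull K := by
  refine ⟨K6, Set.finite_range kp, ?_, P0, P0_mem, ?_⟩
  · have hinj : Function.Injective kp := by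
      intro a b hab
      have h1 : ((kn a).1.val : ℝ) = ((kn b).1.val : ℝ) := congrArg Prod.fst hab
      have h2 : (kn a).1.val = (kn b).1.val := by exact_mod_cast h1
      exact kn_inj1 a b (Fin.ext h2)
    have h := Nat.card_range_of_injective hinj
    have h6 : Nat.card (Fin 6) = 6 := Nat.card_fin 6
    rw [h6] at h
    exact h
  · intro h
    obtain ⟨i, hi⟩ := Set.mem_iUnion.mp h
    exact P0_not_mem i hi

end Pool.Agent.Results.MP_400093_an.SixPointCounterexample
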